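import Mathlib

/-!
# A `κ`-complete uniform filter on `κ` without the Galvin property

Let `κ` be a regular uncountable cardinal with `2 ^ μ ≤ κ` for all `μ < κ`. We use Hausdorff's
independent family: the points of `κ` are identified with the pairs `(s, a)` where `s` is a subset
of `κ` and `a` is a set of subsets of `κ`, all of cardinality less than `κ`, and `A b` is, for
`b ⊆ κ`, the set of the `(s, a)` with `b ∩ s ∈ a`. For every family `B` of less than `κ` subsets of
`κ` and every `b ∉ B` the set `(⋂ c ∈ B, A c) \ A b` has cardinality `κ`. So the filter generated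
by the intersections of less than `κ` of the `A c` and by the sets with small complement is proper
and `κ`-complete, and it contains the intersection of no `κ` of the `2 ^ κ` sets `A c`.
-/

set_option autoImplicit false

namespace Pool.Agent.Results.MP_45cf3b_lc.NonGalvinFilter

open Cardinal Set
open scoped Ordinal

universe u

/-- `F` is `κ`-complete: closed under intersections of less than `κ` of its members. -/
def Complete (κ : Cardinal.{u}) {X : Type u} (F : Filter X) : Prop :=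
  ∀ S : Set (Set X), #S < κ → (∀ s ∈ S, s ∈ F) → ⋂₀ S ∈ F

/-- `F` contains all sets whose complement has cardinality less than `κ`. -/
def Uniform (κ : Cardinal.{u}) {X : Type u} (F : Filter X) : Prop :=
  ∀ s : Set X, #(sᶜ : Set X) < κ → s ∈ F

/-- `Gal(F, κ, lam)`: for every sequence of length `lam` of members of `F` there is a set `I` of
`κ` many indices such that the intersection of the `A i`, `i ∈ I`, belongs to `F`. -/
def Gal {X : Type u} (F : Filter X) (κ lam : Cardinal.{u}) : Prop :=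
  ∀ A : lam.ord.ToType → Set X, (∀ i, A i ∈ F) →
    ∃ I : Set lam.ord.ToType, #I = κ ∧ ⋂ i ∈ I, A i ∈ F

/-- The Galvin property of a filter on a set of cardinality `κ`: for every sequence of length `κ⁺`
of members of `F` there is a set `I` of `κ` many indices such that the intersection of the `A i`,
`i ∈ I`, belongs to `F`. -/
def Galvin (κ : Cardinal.{u}) {X : Type u} (F : Filter X) : Prop := Gal F κ (Order.succ κ)

/-- The subsets of `X` of cardinality less than `κ`. -/
abbrev Sm (κ : Cardinal.{u}) (X : Type u) : Type u := {s : Set X // #s < κ}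

section

variable {κ : Cardinal.{u}} {X : Type u}

/-- Sets of cardinality less than `κ` are bounded. -/
theorem exists_bound [LinearOrder X] [WellFoundedLT X] (hκ : κ.IsRegular) (hX : #X = κ)
    (h : ord #X = typeLT X) {s : Set X} (hs : #s < κ) : ∃ i, s ⊆ Iic i := by
  by_contra hcon
  push Not at hcon
  have h1 : (univ : Set X) ⊆ ⋃ c : s, Iic (c : X) := by
    intro i _
    obtain ⟨c, hc, hic⟩ := not_subset.1 (hcon i)
    exact mem_iUnion.2 ⟨⟨c, hc⟩, (not_le.1 hic).le⟩
  have h2 : #(⋃ c : s, Iic (c : X) : Set X) < κ := by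
    rw [card_iUnion_lt_iff_forall_of_isRegular hκ hs]
    intro c
    rw [← hX]
    exact mk_Iic_lt _ h (by rw [hX]; exact hκ.aleph0_le)
  have h3 := (mk_le_mk_of_subset h1).trans_lt h2
  rw [mk_univ, hX] at h3
  exact lt_irrefl _ h3

theorem mk_sm (hκ : κ.IsRegular) (hpow : ∀ μ < κ, (2 : Cardinal.{u}) ^ μ ≤ κ) (hX : #X = κ) :
    #(Sm κ X) = κ := by
  obtain ⟨lo, wf, h⟩ := exists_ord_eq_type_lt X
  refine le_antisymm ?_ ?_
  · have h1 : ({s | #s < κ} : Set (Set X)) ⊆ ⋃ i : X, 𝒫 (Iic i) := by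
      intro s hs
      obtain ⟨i, hi⟩ := exists_bound hκ hX h hs
      exact mem_iUnion.2 ⟨i, hi⟩
    refine (mk_le_mk_of_subset h1).trans ((mk_iUnion_le _).trans ?_)
    refine (mul_le_mul' hX.le (ciSup_le' fun i => ?_)).trans (mul_eq_self hκ.aleph0_le).le
    rw [mk_powerset]
    refine hpow _ ?_
    have h2 := mk_Iic_lt i h (by rw [hX]; exact hκ.aleph0_le)
    rwa [hX] at h2
  · rw [← hX]
    refine mk_le_of_injective (f := fun x : X =>
      (⟨{x}, by rw [mk_singleton, hX]; exact one_lt_aleph0.trans_le hκ.aleph0_le⟩ : Sm #X X)) ?_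
    intro x y hxy
    exact singleton_injective (congrArg Subtype.val hxy)

/-- The points: pairs of a small set and a small family of small sets. -/
abbrev P (κ : Cardinal.{u}) (X : Type u) : Type u := Sm κ X × Sm κ (Sm κ X)

theorem mk_P (hκ : κ.IsRegular) (hpow : ∀ μ < κ, (2 : Cardinal.{u}) ^ μ ≤ κ) (hX : #X = κ) :
    #(P κ X) = κ := by
  rw [mk_prod, lift_id, lift_id, mk_sm hκ hpow (mk_sm hκ hpow hX), mk_sm hκ hpow hX,
    mul_eq_self hκ.aleph0_le]

/-- The trace of `b` on a small set. -/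
def tr (b : Set X) (s : Sm κ X) : Sm κ X :=
  ⟨b ∩ s.1, (mk_le_mk_of_subset inter_subset_right).trans_lt s.2⟩

/-- The members of the independent family. -/
def A (e : X ≃ P κ X) (b : Set X) : Set X := {x | tr b (e x).1 ∈ (e x).2.1}

theorem independent (hκ : κ.IsRegular) (hX : #X = κ) (e : X ≃ P κ X) {B : Set (Set X)}
    (hB : #B < κ) {b : Set X} (hb : b ∉ B) :
    κ ≤ #((⋂ c ∈ B, A e c) \ A e b : Set X) := by
  classical
  have hsep : ∀ c : B, ∃ x : X, ¬ (x ∈ (c : Set X) ↔ x ∈ b) := by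
    intro c
    by_contra hcon
    push Not at hcon
    exact hb (by rw [← Set.ext hcon]; exact c.2)
  choose g hg using hsep
  have hs0 : #(range g) < κ := mk_range_le.trans_lt hB
  have hs : ∀ ξ : X, #(insert ξ (range g) : Set X) < κ := by
    intro ξ
    refine (mk_insert_le).trans_lt ?_
    exact add_lt_of_lt hκ.aleph0_le hs0 (one_lt_aleph0.trans_le hκ.aleph0_le)
  let s : X → Sm κ X := fun ξ => ⟨insert ξ (range g), hs ξ⟩
  let a : X → Sm κ (Sm κ X) := fun ξ =>
    ⟨range fun c : B => tr (c : Set X) (s ξ), mk_range_le.trans_lt hB⟩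
  have hmem : ∀ ξ : X, e.symm (s ξ, a ξ) ∈ ((⋂ c ∈ B, A e c) \ A e b : Set X) := by
    intro ξ
    refine ⟨?_, ?_⟩
    · refine mem_iInter₂.2 fun c hc => ?_
      simp only [A, mem_ofPred_eq, Equiv.apply_symm_apply]
      exact ⟨⟨c, hc⟩, rfl⟩
    · simp only [A, mem_ofPred_eq, Equiv.apply_symm_apply]
      rintro ⟨c, hc⟩
      apply hg c
      have h1 : (c : Set X) ∩ insert ξ (range g) = b ∩ insert ξ (range g) :=
        congrArg Subtype.val hc
      have h2 : g c ∈ insert ξ (range g) := mem_insert_of_mem _ ⟨c, rfl⟩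
      constructor
      · intro h3
        have h4 : g c ∈ (c : Set X) ∩ insert ξ (range g) := ⟨h3, h2⟩
        rw [h1] at h4
        exact h4.1
      · intro h3
        have h4 : g c ∈ b ∩ insert ξ (range g) := ⟨h3, h2⟩
        rw [← h1] at h4
        exact h4.1
  have hinf : Infinite X := by
    rw [infinite_iff, hX]
    exact hκ.aleph0_le
  have hcompl : #((range g)ᶜ : Set X) = κ := by
    rw [mk_compl_of_infinite _ (by rw [hX]; exact hs0), hX]
  refine hcompl.symm.le.trans ?_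
  refine mk_le_of_injective (f := fun ξ : ((range g)ᶜ : Set X) =>
    (⟨e.symm (s ξ, a ξ), hmem ξ⟩ : ((⋂ c ∈ B, A e c) \ A e b : Set X))) ?_
  intro ξ ζ hξζ
  have h1 : e.symm (s ξ, a ξ) = e.symm (s ζ, a ζ) := congrArg Subtype.val hξζ
  have h2 : s ξ = s ζ := (Prod.ext_iff.1 (e.symm.injective h1)).1
  have h3 : insert (ξ : X) (range g) = insert (ζ : X) (range g) := congrArg Subtype.val h2
  have h4 : (ξ : X) ∈ insert (ζ : X) (range g) := by
    rw [← h3]
    exact mem_insert _ _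
  rcases h4 with h4 | h4
  · exact Subtype.ext h4
  · exact absurd h4 ξ.2

/-- The filter. -/
def Fil (hκ : κ.IsRegular) (e : X ≃ P κ X) : Filter X where
  sets := {S | ∃ B : Set (Set X), #B < κ ∧ #((⋂ c ∈ B, A e c) \ S : Set X) < κ}
  univ_sets := ⟨∅, by rw [mk_eq_zero]; exact hκ.pos, by
    rw [sdiff_univ, mk_eq_zero]; exact hκ.pos⟩
  sets_of_superset := by
    rintro S S' ⟨B, hB, hS⟩ hSS'
    exact ⟨B, hB, (mk_le_mk_of_subset (sdiff_subset_sdiff_right hSS')).trans_lt hS⟩
  inter_sets := by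
    rintro S S' ⟨B, hB, hS⟩ ⟨B', hB', hS'⟩
    refine ⟨B ∪ B', (mk_union_le _ _).trans_lt (add_lt_of_lt hκ.aleph0_le hB hB'), ?_⟩
    refine (mk_le_mk_of_subset ?_).trans_lt
      ((mk_union_le ((⋂ c ∈ B, A e c) \ S : Set X) ((⋂ c ∈ B', A e c) \ S')).trans_lt
        (add_lt_of_lt hκ.aleph0_le hS hS'))
    rintro x ⟨hx, hxS⟩
    rw [mem_iInter₂] at hx
    by_cases h1 : x ∈ S
    · exact Or.inr ⟨mem_iInter₂.2 fun c hc => hx c (Or.inr hc), fun h2 => hxS ⟨h1, h2⟩⟩
    · exact Or.inl ⟨mem_iInter₂.2 fun c hc => hx c (Or.inl hc), h1⟩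

theorem mem_fil {hκ : κ.IsRegular} {e : X ≃ P κ X} {S : Set X} :
    S ∈ Fil hκ e ↔ ∃ B : Set (Set X), #B < κ ∧ #((⋂ c ∈ B, A e c) \ S : Set X) < κ := Iff.rfl

theorem A_mem (hκ : κ.IsRegular) (e : X ≃ P κ X) (b : Set X) : A e b ∈ Fil hκ e := by
  refine ⟨{b}, ?_, ?_⟩
  · rw [mk_singleton]
    exact one_lt_aleph0.trans_le hκ.aleph0_le
  · rw [biInter_singleton, sdiff_self, mk_eq_zero]
    exact hκ.pos

theorem complete_fil (hκ : κ.IsRegular) (e : X ≃ P κ X) : Complete κ (Fil hκ e) := by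
  intro S hS hSF
  have hSF' : ∀ s : S, ∃ B : Set (Set X), #B < κ ∧
      #((⋂ c ∈ B, A e c) \ (s : Set X) : Set X) < κ := fun s => hSF s s.2
  choose B hB hB' using hSF'
  refine ⟨⋃ s : S, B s, ?_, ?_⟩
  · rw [card_iUnion_lt_iff_forall_of_isRegular hκ hS]
    exact hB
  · refine (mk_le_mk_of_subset (t := ⋃ s : S, ((⋂ c ∈ B s, A e c) \ (s : Set X))) ?_).trans_lt ?_
    · rintro x ⟨hx, hxS⟩
      rw [mem_iInter₂] at hx
      rw [mem_sInter] at hxS
      push Not at hxS
      obtain ⟨s, hs, hxs⟩ := hxS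
      refine mem_iUnion.2 ⟨⟨s, hs⟩, mem_iInter₂.2 fun c hc => ?_, hxs⟩
      exact hx c (mem_iUnion.2 ⟨_, hc⟩)
    · rw [card_iUnion_lt_iff_forall_of_isRegular hκ hS]
      exact hB'

theorem uniform_fil (hκ : κ.IsRegular) (e : X ≃ P κ X) : Uniform κ (Fil hκ e) := by
  intro s hs
  refine ⟨∅, by rw [mk_eq_zero]; exact hκ.pos, ?_⟩
  rw [biInter_empty, ← compl_eq_univ_sdiff]
  exact hs

theorem exists_notMem (hX : #X = κ) {B : Set (Set X)} (hB : #B < κ) : ∃ b, b ∉ B := by
  by_contra hcon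
  push Not at hcon
  have h1 : B = Set.univ := eq_univ_of_forall hcon
  rw [h1, mk_univ, mk_set, hX] at hB
  exact absurd hB (not_lt.2 (cantor κ).le)

theorem neBot_fil (hκ : κ.IsRegular) (hX : #X = κ) (e : X ≃ P κ X) : (Fil hκ e).NeBot := by
  refine ⟨fun hbot => ?_⟩
  have hempty : (∅ : Set X) ∈ Fil hκ e := by
    rw [hbot]
    exact Filter.mem_bot
  obtain ⟨B, hB, hB'⟩ := hempty
  obtain ⟨b, hb⟩ := exists_notMem hX hB
  have h1 := independent hκ hX e hB hb
  rw [sdiff_empty] at hB'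
  exact absurd (h1.trans (mk_le_mk_of_subset sdiff_subset)) (not_le.2 hB')

/-- No intersection of `κ` many members of the family belongs to the filter. -/
theorem notMem (hκ : κ.IsRegular) (hX : #X = κ) (e : X ≃ P κ X) {T : Set (Set X)} (hT : κ ≤ #T) :
    ⋂ c ∈ T, A e c ∉ Fil hκ e := by
  rintro ⟨B, hB, hB'⟩
  obtain ⟨b, hbT, hbB⟩ : ∃ b ∈ T, b ∉ B := by
    by_contra hcon
    push Not at hcon
    exact absurd (hT.trans (mk_le_mk_of_subset hcon)) (not_le.2 hB)
  have h1 := independent hκ hX e hB hbB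
  refine absurd (h1.trans (mk_le_mk_of_subset (sdiff_subset_sdiff_right ?_))) (not_le.2 hB')
  exact biInter_subset_of_mem hbT

theorem notGal (hκ : κ.IsRegular) (hX : #X = κ) (e : X ≃ P κ X) {lam : Cardinal.{u}}
    (hlam : lam ≤ 2 ^ κ) : ¬ Gal (Fil hκ e) κ lam := by
  intro hG
  have h1 : #(lam.ord.ToType) ≤ #(Set X) := by
    rw [mk_toType, card_ord, mk_set, hX]
    exact hlam
  obtain ⟨j⟩ := (Cardinal.le_def _ _).1 h1
  obtain ⟨I, hI, hI'⟩ := hG (fun i => A e (j i)) fun i => A_mem hκ e (j i)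
  refine notMem hκ hX e (T := j '' I) (by rw [mk_image_eq j.injective, hI]) ?_
  rw [biInter_image]
  exact hI'

theorem main (hκ : κ.IsRegular) (hpow : ∀ μ < κ, (2 : Cardinal.{u}) ^ μ ≤ κ) (hX : #X = κ) :
    ∃ F : Filter X, F.NeBot ∧ Complete κ F ∧ Uniform κ F ∧ ¬ Galvin κ F ∧ ¬ Gal F κ (2 ^ κ) := by
  have h1 : #X = #(P κ X) := by rw [hX, mk_P hκ hpow hX]
  obtain ⟨e⟩ := Cardinal.eq.1 h1
  exact ⟨Fil hκ e, neBot_fil hκ hX e, complete_fil hκ e, uniform_fil hκ e,
    notGal hκ hX e (Order.succ_le_of_lt (cantor κ)), notGal hκ hX e le_rfl⟩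

end

/-- Let `κ` be a regular uncountable cardinal such that GCH holds below `κ` (for instance assume
GCH), or only `2 ^ μ ≤ κ` for all `μ < κ`. Then on every set `X` of cardinality `κ` there is a
proper, uniform, `κ`-complete filter which does not have the Galvin property; indeed even
`Gal(F, κ, 2 ^ κ)` fails. -/
theorem result (κ : Cardinal.{0}) (hκ : κ.IsRegular) (_ : ℵ₀ < κ)
    (hpow : (∀ μ : Cardinal.{0}, ℵ₀ ≤ μ → (2 : Cardinal.{0}) ^ μ = Order.succ μ) ∨
      ∀ μ < κ, (2 : Cardinal.{0}) ^ μ ≤ κ) (X : Type) (hX : #X = κ) :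
    ∃ F : Filter X, F.NeBot ∧ Complete κ F ∧ Uniform κ F ∧ ¬ Galvin κ F ∧ ¬ Gal F κ (2 ^ κ) := by
  refine main hκ ?_ hX
  rcases hpow with hpow | hpow
  · intro μ hμ
    rcases lt_or_ge μ ℵ₀ with h0 | h0
    · exact ((power_lt_aleph0 (natCast_lt_aleph0 (n := 2)) h0).trans_le hκ.aleph0_le).le
    · rw [hpow μ h0]
      exact Order.succ_le_of_lt hμ
  · exact hpow

end Pool.Agent.Results.MP_45cf3b_lc.NonGalvinFilter
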